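import Pool.Agent.J4H1.GD.Sum

set_option autoImplicit false

/-! Project GD, SUM: the theorem. -/

namespace Pool.Agent.J4H1.GD

open Complex Filter Topology MeasureTheory Set
open Pool.Agent.N879.GD
open Pool.Agent.Y969.GP (PS)
open scoped ComplexConjugate

noncomputable section

/-- the parameters exist -/
lemma exists_Pr {η : ℝ} (hη : 0 < η) (hη1 : η ≤ 1) : ∃ (b : ℕ) (T₀ : ℝ), 4 ≤ b ∧ 1 ≤ T₀ ∧
    ∀ (T : ℝ) (X : ℕ), T₀ ≤ T → (X : ℝ) ≤ 2 * T ^ (1 + η / 40) →
      Pr η (η / 40) T (T ^ (η / 40)) b X ∧ (1 + Real.log X) ^ 2 ≤ 64 * (T ^ (η / 40)) := by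
  set κ := η / 40 with hκ
  have hκ0 : 0 < κ := by positivity
  have hκ1 : κ ≤ 1 / 40 := by rw [hκ]; linarith
  set b : ℕ := ⌈2 / κ⌉₊ with hb
  have hbκ : 2 ≤ κ * b := by
    have := Nat.le_ceil (2 / κ)
    rw [← hb, div_le_iff₀ hκ0] at this
    linarith
  have hb4 : 4 ≤ b := by
    have h1 : (4:ℝ) ≤ b := by
      have h2 : (b:ℝ) ≥ 2 / κ := Nat.le_ceil _
      have h3 : (4:ℝ) ≤ 2 / κ := by
        rw [le_div_iff₀ hκ0]; linarith
      linarith
    exact_mod_cast h1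
  -- `T ^ (κ/2) ≥ (log T)^2`-type condition
  have hlim : Tendsto (fun T : ℝ => (Real.log T) ^ 2 / T ^ κ) atTop (𝓝 0) := by
    have := (isLittleO_log_rpow_rpow_atTop 2 hκ0).tendsto_div_nhds_zero
    refine this.congr' ?_
    filter_upwards [eventually_gt_atTop 1] with T hT
    norm_num
  have h16 : ∀ᶠ T : ℝ in atTop, 16 ≤ T ^ κ := (tendsto_rpow_atTop hκ0).eventually_ge_atTop 16
  have hev := (hlim.eventually (gt_mem_nhds (show (0:ℝ) < 1 by norm_num))).and h16
  obtain ⟨T1, hT1⟩ := eventually_atTop.1 hev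
  refine ⟨b, max T1 64, hb4, le_max_of_le_right (by norm_num), fun T X hT hX => ?_⟩
  have hTT1 : T1 ≤ T := (le_max_left _ _).trans hT
  have hT64 : 64 ≤ T := (le_max_right _ _).trans hT
  have hT0 : 0 < T := by linarith
  have hT1' : 1 ≤ T := by linarith
  obtain ⟨hl, h16'⟩ := hT1 T hTT1
  have hτ0 : 0 < T ^ κ := by positivity
  have hX' : (X : ℝ) ≤ 2 * T * T ^ κ := by
    refine hX.trans (le_of_eq ?_)
    rw [Real.rpow_add hT0, Real.rpow_one]; ring
  refine ⟨⟨hT64, rfl, hκ, hη, hη1, h16', ?_, ?_, hX'⟩, ?_⟩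
  · rw [← Real.rpow_natCast, ← Real.rpow_mul hT0.le]
    calc T ^ (κ * ((40 : ℕ) : ℝ)) ≤ T ^ (1 : ℝ) := by
          refine Real.rpow_le_rpow_of_exponent_le hT1' ?_
          push_cast; linarith
      _ = T := Real.rpow_one T
  · rw [← Real.rpow_natCast (T ^ κ), ← Real.rpow_mul hT0.le, ← Real.rpow_natCast T]
    refine Real.rpow_le_rpow_of_exponent_le hT1' ?_
    push_cast; exact hbκ
  · -- logarithm
    have hl' : (Real.log T) ^ 2 ≤ T ^ κ := by
      have := hl.le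
      rwa [div_le_one hτ0] at this
    have hlT : 1 ≤ Real.log T := by
      rw [Real.le_log_iff_exp_le hT0]
      have := Real.exp_one_lt_d9
      linarith
    rcases Nat.eq_zero_or_pos X with h0 | h0
    · rw [h0, Nat.cast_zero, Real.log_zero]
      linarith
    have hX0 : (0:ℝ) < X := by exact_mod_cast h0
    have hX1 : (1:ℝ) ≤ X := by exact_mod_cast h0
    have hXT : (X:ℝ) ≤ T ^ 3 := by
      have h1 : T ^ κ ≤ T := by
        calc T ^ κ ≤ T ^ (1:ℝ) := Real.rpow_le_rpow_of_exponent_le hT1' (by linarith)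
          _ = T := Real.rpow_one T
      calc (X:ℝ) ≤ 2 * T * T ^ κ := hX'
        _ ≤ T * T * T := by
          have : 2 * T ≤ T * T := by nlinarith
          gcongr
        _ = T ^ 3 := by ring
    have hlX : Real.log X ≤ 3 * Real.log T := by
      have := Real.log_le_log hX0 hXT
      rwa [Real.log_pow] at this
    have hlX0 : 0 ≤ Real.log X := Real.log_nonneg hX1
    calc (1 + Real.log X) ^ 2 ≤ (4 * Real.log T) ^ 2 := by
          gcongr
          linarith
      _ = 16 * (Real.log T) ^ 2 := by ring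
      _ ≤ 64 * T ^ κ := by nlinarith

theorem t_SUM (hA : S_BA) (hB : S_BB) : S_SUM := by
  obtain ⟨η, hη, hη1, hBB⟩ := hB
  obtain ⟨b, T₀, hb4, hT₀, hP⟩ := exists_Pr hη hη1
  obtain ⟨C1, hC1, h1⟩ := hA b (by omega)
  obtain ⟨C2, hC2, h2⟩ := hBB b (by omega)
  obtain ⟨K1, hK1, hk1⟩ := pow_exp_le b
  obtain ⟨K2, hK2, hk2⟩ := pow_exp_le (b + b)
  obtain ⟨K3, hK3, hk3⟩ := pow_exp_le (b + 1)
  set K : ℝ := (C1 + C2) * (100 * K1 * K2 * K3) with hK
  have hK0 : 0 < K := by positivity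
  refine ⟨η / 40, η / 40, b, by positivity, by linarith, by positivity, by linarith, hb4, 512 * K, T₀, by positivity,
    hT₀, ?_⟩
  intro σ T y ω X hσ0 hσ1 hT hX1 hX2
  obtain ⟨P, hlog⟩ := hP T X hT hX2
  set τ := T ^ (η / 40) with hτ
  have hT64 := P.hT
  have hT0 : 0 < T := by linarith
  have hτ0 : 0 < τ := by linarith [P.hτ16]
  -- the half sums
  have half : ∀ y ω : ℝ, ‖∑ p ∈ (PS X).filter (fun p => p.1 < p.2), bt σ b T y ω p.1 p.2‖ ≤
      256 * K * (1 + |y|) * τ⁻¹ := by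
    intro y ω
    set J := Nat.log 2 X + 1 with hJ
    have hJX : X < 2 ^ J := Nat.lt_pow_succ_log_self (by norm_num) X
    rw [half_sum (bt σ b T y ω) X J hJX]
    have hJ' : (J : ℝ) ≤ 4 * (1 + Real.log X) := by
      rcases Nat.eq_zero_or_pos X with h0 | h0
      · rw [hJ, h0]; simp
      have hX0 : (0:ℝ) < X := by exact_mod_cast h0
      have hX1 : (1:ℝ) ≤ X := by exact_mod_cast h0
      have e1 : (2:ℝ) ^ (Nat.log 2 X) ≤ X := by exact_mod_cast Nat.pow_log_le_self 2 (by omega)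
      have e2 := Real.log_le_log (by positivity) e1
      rw [Real.log_pow] at e2
      have e3 := Real.log_two_gt_d9
      have e4 : 0 ≤ Real.log X := Real.log_nonneg hX1
      rw [hJ]
      push_cast
      have e5 : (0:ℝ) ≤ (Nat.log 2 X : ℕ) := Nat.cast_nonneg _
      nlinarith
    have hblk : ∀ m ∈ Finset.Icc 1 X, ∀ j ∈ Finset.range J,
        ‖∑ r ∈ Finset.range (min (2 ^ j) (X / m - m + 1 - 2 ^ j)), bt σ b T y ω m (m + 2 ^ j + r)‖ ≤
          K * (1 + |y|) * (τ ^ 2)⁻¹ / m := by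
      intro m hm j _
      have hm1 := (Finset.mem_Icc.1 hm).1
      have hm0 : (0:ℝ) < m := by exact_mod_cast hm1
      have hR1 : 1 ≤ 2 ^ j := Nat.one_le_two_pow
      rcases Nat.eq_zero_or_pos (min (2 ^ j) (X / m - m + 1 - 2 ^ j)) with h0 | h0
      · rw [h0, Finset.range_zero, Finset.sum_empty, norm_zero]
        positivity
      have hmX : m * (m + 2 ^ j) ≤ X := by
        have h3 : m + 2 ^ j ≤ X / m := by omega
        have h4 := (Nat.le_div_iff_mul_le (by omega)).1 h3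
        rw [mul_comm]; exact h4
      refine block P hC1 hC2 hK1 hK2 hK3 hk1 hk2 hk3 hm1 hR1 hmX (ω := ω) (y := y) ?_ ?_
      · intro hz
        exact h1 σ T y ω m (2 ^ j) _ hσ0 hσ1 hT0 hm1 hR1 (min_le_left _ _) hz
      · intro hz hc1 hc2
        exact h2 σ T y ω m (2 ^ j) _ hσ0 hσ1 hT0 hm1 hR1 (min_le_left _ _) hz hc1 hc2
    have hy : 0 ≤ |y| := abs_nonneg y
    calc _ ≤ ∑ m ∈ Finset.Icc 1 X, ∑ j ∈ Finset.range J,
        ‖∑ r ∈ Finset.range (min (2 ^ j) (X / m - m + 1 - 2 ^ j)), bt σ b T y ω m (m + 2 ^ j + r)‖ :=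
          (norm_sum_le _ _).trans (Finset.sum_le_sum fun m _ => norm_sum_le _ _)
      _ ≤ ∑ m ∈ Finset.Icc 1 X, ∑ _j ∈ Finset.range J, K * (1 + |y|) * (τ ^ 2)⁻¹ / m :=
          Finset.sum_le_sum fun m hm => Finset.sum_le_sum fun j hj => hblk m hm j hj
      _ = (J : ℝ) * (K * (1 + |y|) * (τ ^ 2)⁻¹) * ∑ m ∈ Finset.Icc 1 X, ((m:ℝ))⁻¹ := by
          rw [Finset.mul_sum]
          refine Finset.sum_congr rfl fun m _ => ?_
          rw [Finset.sum_const, Finset.card_range, nsmul_eq_mul]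
          ring
      _ ≤ (4 * (1 + Real.log X)) * (K * (1 + |y|) * (τ ^ 2)⁻¹) * (1 + Real.log X) := by
          have g4 : ∑ n ∈ Finset.Icc 1 X, ((n : ℝ))⁻¹ ≤ 1 + Real.log X := by
            have := harmonic_le_one_add_log X
            rw [harmonic_eq_sum_Icc] at this
            push_cast at this
            exact this
          have g5 : 0 ≤ ∑ n ∈ Finset.Icc 1 X, ((n : ℝ))⁻¹ := by positivity
          have g6 : (0:ℝ) ≤ J := Nat.cast_nonneg J
          have g7 : 0 ≤ 4 * (1 + Real.log X) := g6.trans hJ'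
          gcongr
      _ = 4 * (K * (1 + |y|) * (τ ^ 2)⁻¹) * (1 + Real.log X) ^ 2 := by ring
      _ ≤ 4 * (K * (1 + |y|) * (τ ^ 2)⁻¹) * (64 * τ) := by gcongr
      _ = 256 * K * (1 + |y|) * τ⁻¹ := by
          field_simp
          ring
  have hsplit : ∑ p ∈ (PS X).filter (fun p => p.1 ≠ p.2), bt σ b T y ω p.1 p.2 =
      ∑ p ∈ (PS X).filter (fun p => p.1 < p.2), bt σ b T y ω p.1 p.2 +
      conj (∑ p ∈ (PS X).filter (fun p => p.1 < p.2), bt σ b T (-y) (-ω) p.1 p.2) := by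
    have e1 : (PS X).filter (fun p => p.1 ≠ p.2) =
        (PS X).filter (fun p => p.1 < p.2) ∪ (PS X).filter (fun p => p.2 < p.1) := by
      ext p
      simp only [Finset.mem_filter, Finset.mem_union]
      constructor
      · rintro ⟨h1, h2⟩
        rcases lt_or_gt_of_ne h2 with h | h
        · exact Or.inl ⟨h1, h⟩
        · exact Or.inr ⟨h1, h⟩
      · rintro (⟨h1, h2⟩ | ⟨h1, h2⟩)
        · exact ⟨h1, h2.ne⟩
        · exact ⟨h1, h2.ne'⟩
    rw [e1, Finset.sum_union]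
    · congr 1
      rw [map_sum]
      refine Finset.sum_nbij' (fun p => (p.2, p.1)) (fun p => (p.2, p.1)) ?_ ?_ ?_ ?_ ?_
      · rintro ⟨a, c⟩ h
        simp only [PS, Finset.mem_filter, Finset.mem_product, Finset.mem_Icc] at h ⊢
        exact ⟨⟨⟨h.1.1.2, h.1.1.1⟩, by rw [mul_comm]; exact h.1.2⟩, h.2⟩
      · rintro ⟨a, c⟩ h
        simp only [PS, Finset.mem_filter, Finset.mem_product, Finset.mem_Icc] at h ⊢
        exact ⟨⟨⟨h.1.1.2, h.1.1.1⟩, by rw [mul_comm]; exact h.1.2⟩, h.2⟩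
      · rintro ⟨a, c⟩ _; rfl
      · rintro ⟨a, c⟩ _; rfl
      · rintro ⟨a, c⟩ _
        exact bt_conj σ b T y ω a c
    · rw [Finset.disjoint_left]
      intro p h1 h2
      have h3 := (Finset.mem_filter.1 h1).2
      have h4 := (Finset.mem_filter.1 h2).2
      omega
  rw [hsplit]
  have g1 := half y ω
  have g2 := half (-y) (-ω)
  rw [abs_neg] at g2
  have e2 : T ^ (-(η / 40)) = τ⁻¹ := Real.rpow_neg hT0.le _
  rw [e2]
  calc _ ≤ 256 * K * (1 + |y|) * τ⁻¹ + 256 * K * (1 + |y|) * τ⁻¹ := by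
        refine (norm_add_le _ _).trans (add_le_add g1 ?_)
        rw [RCLike.norm_conj]
        exact g2
    _ = _ := by ring

end

end Pool.Agent.J4H1.GD
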