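import Pool.Agent.J4H98.GD.Gam
import Pool.Agent.J4H98.GD.Gf
import Pool.Agent.J4H98.GD.Gk
import Pool.Agent.J4H98.GD.Pl
import Pool.Agent.J4H81.GD.Bb
import Pool.Agent.J4H55.GD.Lew
import Pool.Agent.J4H55.GD.Dil1
import Pool.Agent.J4H8.GD.Cov
import Pool.Agent.J4H8.GD.Det
import Pool.Agent.J4H64.GD.Dilk
import Pool.Agent.J4H64.GD.Lip
import Pool.Agent.J4H13.GD.Fin
import Pool.Agent.J4H13.GD.Lem
import Pool.Agent.J4H25.GD.Ofi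
import Pool.Agent.J4H1.GD.Sum2
import Pool.Agent.N879.GD.Cru
import Pool.Agent.N879.GD.M4b
import Pool.Agent.Y891.GP.AFE
import Pool.Agent.Y587.GP.V
import Pool.Agent.Y587.GP.Chi

set_option autoImplicit false

/-!
Project GD: assembly.
-/

namespace Pool.Agent.J4H1.GD

open Pool.Agent.N879.GD

theorem all_CRU : S_CRU := Pool.Agent.N879.GD.t_CRU

theorem all_GK : S_GK := Pool.Agent.J4H98.GD.t_GK Pool.Agent.J4H98.GD.t_GAM Pool.Agent.J4H98.GD.t_GF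

theorem all_SUM : S_SUM := t_SUM (Pool.Agent.J4H81.GD.t_BA all_GK)
  (Pool.Agent.J4H81.GD.t_BB Pool.Agent.J4H98.GD.t_GF all_GK t_LL)

theorem all_LEM : S_LEM := Pool.Agent.J4H13.GD.t_LEM (Pool.Agent.J4H25.GD.t_OFI all_SUM)
  Pool.Agent.J4H13.GD.t_DIA all_CRU
  (Pool.Agent.Y891.GP.t_AFE Pool.Agent.Y587.GP.t_V Pool.Agent.Y587.GP.Chi.t_CHI)

theorem all_DIL1 : S_DIL1 := Pool.Agent.J4H55.GD.t_DIL1 (Pool.Agent.J4H55.GD.t_LEW all_LEM all_CRU)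
  Pool.Agent.J4H98.GD.t_PL all_CRU

theorem all_INT : S_INT := Pool.Agent.J4H8.GD.t_INT all_CRU

theorem all_FIN : S_FIN := Pool.Agent.J4H13.GD.t_FIN all_DIL1
  (Pool.Agent.J4H64.GD.t_DILK Pool.Agent.N879.GD.t_M4' all_CRU) Pool.Agent.J4H8.GD.t_COV all_INT
  (Pool.Agent.J4H8.GD.t_MB all_CRU) (Pool.Agent.J4H64.GD.t_LIP all_CRU)
  (Pool.Agent.J4H8.GD.t_DET all_CRU all_INT)

end Pool.Agent.J4H1.GD
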