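import Pool.Agent.N879.GD.Stm
import Pool.Agent.H221R2.FB_VdcGen

set_option autoImplicit false

/-! Project GD, LL: van der Corput's method for the phase `ω log log (1 + t/m)`. -/

namespace Pool.Agent.J4H1.GD

open Complex Filter Topology MeasureTheory Set
open Pool.Agent.N879.GD
open Pool.Agent.H469R2.NK (e)

noncomputable section

/-- the coefficients of the derivatives -/
def Ac : ℕ → ℕ → ℕ
  | 0, 0 => 1
  | 0, _ + 1 => 0
  | j + 1, 0 => (j + 1) * Ac j 0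
  | j + 1, i + 1 => (j + 1) * Ac j (i + 1) + (i + 1) * Ac j i

lemma Ac_zero : ∀ j, 1 ≤ Ac j 0
  | 0 => le_refl _
  | j + 1 => by
    rw [Ac]
    exact one_le_mul (by omega) (Ac_zero j)

lemma Ac_self : ∀ j, 1 ≤ Ac j j
  | 0 => le_refl _
  | j + 1 => by
    rw [Ac]
    have := Ac_self j
    have h2 : 1 ≤ (j + 1) * Ac j j := one_le_mul (by omega) this
    omega

lemma Ac_big : ∀ j i, j < i → Ac j i = 0
  | 0, i + 1, _ => rfl
  | j + 1, i + 1, h => by
    rw [Ac, Ac_big j (i + 1) (by omega), Ac_big j i (by omega)]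
    simp

/-- `1 / (m + t)` -/
def pf (m : ℕ) (t : ℝ) : ℝ := (m + t)⁻¹

/-- `1 / log (1 + t / m)` -/
def qf (m : ℕ) (t : ℝ) : ℝ := (Real.log (1 + t / m))⁻¹

/-- the absolute value of the derivative of order `j + 1` -/
def Pf (m j : ℕ) (t : ℝ) : ℝ := ∑ i ∈ Finset.range (j + 1), (Ac j i : ℝ) * (pf m t ^ (j + 1) * qf m t ^ (i + 1))

lemma log_pos' {m : ℕ} (hm : 1 ≤ m) {t : ℝ} (ht : 0 < t) : 0 < Real.log (1 + t / m) := by
  have hm0 : (0:ℝ) < m := by exact_mod_cast hm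
  exact Real.log_pos (by have := div_pos ht hm0; linarith)

lemma pf_der {m : ℕ} {t : ℝ} (ht : 0 < t) : HasDerivAt (pf m) (-(pf m t) ^ 2) t := by
  have hm0 : (0:ℝ) ≤ m := Nat.cast_nonneg m
  have h1 : HasDerivAt (fun t : ℝ => (m:ℝ) + t) 1 t := (hasDerivAt_id t).const_add _
  have h2 := h1.inv (by linarith)
  refine (h2.congr_deriv ?_)
  unfold pf
  field_simp

lemma qf_der {m : ℕ} (hm : 1 ≤ m) {t : ℝ} (ht : 0 < t) :
    HasDerivAt (qf m) (-(pf m t * (qf m t) ^ 2)) t := by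
  have hm0 : (0:ℝ) < m := by exact_mod_cast hm
  have hL := log_pos' hm ht
  have h0 : HasDerivAt (fun t : ℝ => 1 + t / m) (1 / m) t := ((hasDerivAt_id t).div_const (m:ℝ)).const_add 1
  have hne : 1 + t / m ≠ 0 := by positivity
  have h1 := (h0.log hne).inv hL.ne'
  refine (h1.congr_deriv ?_)
  unfold pf qf
  have hmt : (m:ℝ) + t ≠ 0 := by positivity
  have hL' := hL.ne'
  have e1 : (1:ℝ) + t / m = (m + t) / m := by field_simp
  rw [e1] at hL' ⊢
  field_simp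

lemma loglog_der {m : ℕ} (hm : 1 ≤ m) {t : ℝ} (ht : 0 < t) :
    HasDerivAt (fun t : ℝ => Real.log (Real.log (1 + t / m))) (pf m t * qf m t) t := by
  have hm0 : (0:ℝ) < m := by exact_mod_cast hm
  have hL := log_pos' hm ht
  have h0 : HasDerivAt (fun t : ℝ => 1 + t / m) (1 / m) t := ((hasDerivAt_id t).div_const (m:ℝ)).const_add 1
  have hne : 1 + t / m ≠ 0 := by positivity
  have h1 := (h0.log hne).log hL.ne'
  refine (h1.congr_deriv ?_)
  unfold pf qf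
  have hmt : (m:ℝ) + t ≠ 0 := by positivity
  have hL' := hL.ne'
  have e1 : (1:ℝ) + t / m = (m + t) / m := by field_simp
  rw [e1] at hL' ⊢
  field_simp

lemma Pf_succ (m j : ℕ) (t : ℝ) : Pf m (j + 1) t = ∑ i ∈ Finset.range (j + 1), (Ac j i : ℝ) *
    ((j + 1) * (pf m t ^ (j + 2) * qf m t ^ (i + 1)) + (i + 1) * (pf m t ^ (j + 2) * qf m t ^ (i + 2))) := by
  set p := pf m t
  set q := qf m t
  have e1 : Pf m (j + 1) t = ∑ i ∈ Finset.range (j + 2), (Ac (j + 1) i : ℝ) * (p ^ (j + 2) * q ^ (i + 1)) := rfl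
  rw [e1, Finset.sum_range_succ']
  have e2 : ∀ i ∈ Finset.range (j + 1), (Ac (j + 1) (i + 1) : ℝ) * (p ^ (j + 2) * q ^ (i + 1 + 1)) =
      (j + 1) * (Ac j (i + 1) : ℝ) * (p ^ (j + 2) * q ^ (i + 2)) +
        (Ac j i : ℝ) * ((i + 1) * (p ^ (j + 2) * q ^ (i + 2))) := by
    intro i _
    rw [Ac]
    push_cast
    ring
  rw [Finset.sum_congr rfl e2, Finset.sum_add_distrib]
  have e3 : ∑ i ∈ Finset.range (j + 1), (j + 1) * (Ac j (i + 1) : ℝ) * (p ^ (j + 2) * q ^ (i + 2)) +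
      (Ac (j + 1) 0 : ℝ) * (p ^ (j + 2) * q ^ (0 + 1)) =
      ∑ i ∈ Finset.range (j + 1), (Ac j i : ℝ) * ((j + 1) * (p ^ (j + 2) * q ^ (i + 1))) := by
    rw [Finset.sum_range_succ, Ac_big j (j + 1) (by omega)]
    rw [Finset.sum_range_succ' (fun i => (Ac j i : ℝ) * ((j + 1) * (p ^ (j + 2) * q ^ (i + 1))))]
    rw [Ac]
    push_cast
    have : ∑ x ∈ Finset.range j, ((j:ℝ) + 1) * (Ac j (x + 1) : ℝ) * (p ^ (j + 2) * q ^ (x + 2)) =
        ∑ k ∈ Finset.range j, (Ac j (k + 1) : ℝ) * (((j:ℝ) + 1) * (p ^ (j + 2) * q ^ (k + 1 + 1))) :=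
      Finset.sum_congr rfl fun x _ => by ring
    rw [this]
    ring
  calc _ = (∑ i ∈ Finset.range (j + 1), (j + 1) * (Ac j (i + 1) : ℝ) * (p ^ (j + 2) * q ^ (i + 2)) +
      (Ac (j + 1) 0 : ℝ) * (p ^ (j + 2) * q ^ (0 + 1))) +
      ∑ i ∈ Finset.range (j + 1), (Ac j i : ℝ) * ((i + 1) * (p ^ (j + 2) * q ^ (i + 2))) := by ring
    _ = _ := by
      rw [e3, ← Finset.sum_add_distrib]
      refine Finset.sum_congr rfl fun i _ => by ring

lemma Pf_der {m : ℕ} (hm : 1 ≤ m) (j : ℕ) {t : ℝ} (ht : 0 < t) : HasDerivAt (Pf m j) (-Pf m (j + 1) t) t := by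
  have h : HasDerivAt (fun t => ∑ i ∈ Finset.range (j + 1), (Ac j i : ℝ) * (pf m t ^ (j + 1) * qf m t ^ (i + 1)))
      (∑ i ∈ Finset.range (j + 1), (Ac j i : ℝ) *
        (((((j + 1 : ℕ) : ℝ) * pf m t ^ j * (-(pf m t) ^ 2)) * qf m t ^ (i + 1) +
          pf m t ^ (j + 1) * (((i + 1 : ℕ) : ℝ) * qf m t ^ i * (-(pf m t * (qf m t) ^ 2)))))) t := by
    refine HasDerivAt.fun_sum fun i _ => ?_
    refine HasDerivAt.const_mul _ ?_
    exact ((pf_der ht).pow (j + 1)).mul ((qf_der hm ht).pow (i + 1))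
  refine h.congr_deriv ?_
  rw [Pf_succ, ← Finset.sum_neg_distrib]
  refine Finset.sum_congr rfl fun i _ => ?_
  push_cast
  ring

lemma kap_eq (m R : ℕ) : kap m R = R * (pf m R * qf m R) := by
  unfold kap pf qf
  rw [div_div, div_eq_mul_inv, mul_inv]

lemma Rp_le {m R : ℕ} (hm : 1 ≤ m) : (R:ℝ) * pf m R ≤ 1 := by
  have hm0 : (0:ℝ) < m := by exact_mod_cast hm
  unfold pf
  rw [← div_eq_mul_inv, div_le_one (by positivity)]
  linarith

lemma pf_pos {m : ℕ} (hm : 1 ≤ m) {t : ℝ} (ht : 0 < t) : 0 < pf m t := by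
  have hm0 : (0:ℝ) < m := by exact_mod_cast hm
  unfold pf; positivity

lemma qf_pos {m : ℕ} (hm : 1 ≤ m) {t : ℝ} (ht : 0 < t) : 0 < qf m t := inv_pos.2 (log_pos' hm ht)

lemma kap_le {m R : ℕ} (hm : 1 ≤ m) (hR : 1 ≤ R) : kap m R ≤ 1 := by
  have hm0 : (0:ℝ) < m := by exact_mod_cast hm
  have hR0 : (0:ℝ) < R := by exact_mod_cast hR
  have hL := log_pos' hm hR0
  unfold kap
  rw [div_le_one hL]
  have h := Real.one_sub_inv_le_log_of_pos (show 0 < 1 + (R:ℝ) / m by positivity)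
  refine le_trans (le_of_eq ?_) h
  field_simp
  ring

lemma kap_pos {m R : ℕ} (hm : 1 ≤ m) (hR : 1 ≤ R) : 0 < kap m R := by
  have hm0 : (0:ℝ) < m := by exact_mod_cast hm
  have hR0 : (0:ℝ) < R := by exact_mod_cast hR
  have hL := log_pos' hm hR0
  unfold kap
  positivity

lemma kap_half {m R : ℕ} (hm : 1 ≤ m) (hR : 1 ≤ R) (h : R ≤ m) : 1 / 2 ≤ kap m R := by
  have hm0 : (0:ℝ) < m := by exact_mod_cast hm
  have hR0 : (0:ℝ) < R := by exact_mod_cast hR
  have hRm : (R:ℝ) ≤ m := by exact_mod_cast h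
  have hL := log_pos' hm hR0
  have h1 : Real.log (1 + (R:ℝ) / m) ≤ R / m := by
    have := Real.log_le_sub_one_of_pos (show 0 < 1 + (R:ℝ) / m by positivity)
    linarith
  unfold kap
  rw [le_div_iff₀ hL]
  calc 1 / 2 * Real.log (1 + (R:ℝ) / m) ≤ 1 / 2 * (R / m) := by gcongr
    _ ≤ R / (m + R) := by
      rw [← mul_div_assoc, div_le_div_iff₀ hm0 (by positivity)]
      nlinarith

lemma Rp_half {m R : ℕ} (hR : 1 ≤ R) (h : m ≤ R) : 1 / 2 ≤ (R:ℝ) * pf m R := by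
  have hR0 : (0:ℝ) < R := by exact_mod_cast hR
  have hRm : (m:ℝ) ≤ R := by exact_mod_cast h
  have hm0 : (0:ℝ) ≤ m := Nat.cast_nonneg m
  unfold pf
  rw [← div_eq_mul_inv, div_le_div_iff₀ (by norm_num) (by positivity)]
  linarith

lemma pf_anti {m R : ℕ} (hm : 1 ≤ m) {t : ℝ} (h1 : (R:ℝ) ≤ t) : pf m t ≤ pf m R := by
  have hm0 : (0:ℝ) < m := by exact_mod_cast hm
  unfold pf
  gcongr

lemma pf_low {m R : ℕ} (hm : 1 ≤ m) {t : ℝ} (ht : 0 < t) (h1 : t ≤ 3 * R) : pf m R / 3 ≤ pf m t := by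
  have hm0 : (0:ℝ) < m := by exact_mod_cast hm
  have hR0 : (0:ℝ) ≤ R := Nat.cast_nonneg R
  unfold pf
  rw [← one_div, ← one_div, div_div, div_le_div_iff₀ (by positivity) (by positivity)]
  linarith

lemma qf_anti {m R : ℕ} (hm : 1 ≤ m) (hR : 1 ≤ R) {t : ℝ} (h1 : (R:ℝ) ≤ t) : qf m t ≤ qf m R := by
  have hm0 : (0:ℝ) < m := by exact_mod_cast hm
  have hR0 : (0:ℝ) < R := by exact_mod_cast hR
  have hL := log_pos' hm hR0
  unfold qf
  gcongr

lemma qf_low {m R : ℕ} (hm : 1 ≤ m) {t : ℝ} (hR : 1 ≤ R) (ht : 0 < t) (h1 : t ≤ 3 * R) :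
    qf m R / 3 ≤ qf m t := by
  have hm0 : (0:ℝ) < m := by exact_mod_cast hm
  have hR0 : (0:ℝ) < R := by exact_mod_cast hR
  have hL := log_pos' hm hR0
  have hL2 := log_pos' hm ht
  have h2 : Real.log (1 + t / m) ≤ 3 * Real.log (1 + (R:ℝ) / m) := by
    rw [← Real.log_rpow (by positivity)]
    refine Real.log_le_log (by positivity) ?_
    have h3 : t / m ≤ 3 * ((R:ℝ) / m) := by
      rw [← mul_div_assoc]; gcongr
    have h4 : (1 + (R:ℝ) / m) ^ (3:ℝ) = (1 + (R:ℝ) / m) ^ 3 := by norm_cast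
    rw [h4]
    have h5 : 0 ≤ (R:ℝ) / m := by positivity
    nlinarith [mul_nonneg h5 h5, mul_nonneg (mul_nonneg h5 h5) h5]
  unfold qf
  rw [← one_div, ← one_div, div_div, div_le_div_iff₀ (by positivity) (by positivity)]
  linarith

/-- the size of the normalised derivatives -/
lemma Pf_bounds {m R : ℕ} (hm : 1 ≤ m) (hR : 1 ≤ R) (j : ℕ) {t : ℝ} (h1 : (R:ℝ) ≤ t) (h2 : t ≤ 3 * R) :
    (1 / 18 : ℝ) ^ (j + 1) ≤ Pf m j t * (R:ℝ) ^ (j + 1) / kap m R ∧
    Pf m j t * (R:ℝ) ^ (j + 1) / kap m R ≤ ∑ i ∈ Finset.range (j + 1), (Ac j i : ℝ) := by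
  have hR0 : (0:ℝ) < R := by exact_mod_cast hR
  have ht : 0 < t := by linarith
  have hk := kap_pos hm hR
  have hk1 := kap_le hm hR
  have hp := pf_pos hm hR0
  have hq := qf_pos hm hR0
  have hpt := pf_pos hm ht
  have hqt := qf_pos hm ht
  have hkap := kap_eq m R
  have hRp := Rp_le (R := R) hm
  have hRp0 : 0 < (R:ℝ) * pf m R := by positivity
  have e1 : Pf m j t * (R:ℝ) ^ (j + 1) / kap m R = ∑ i ∈ Finset.range (j + 1), (Ac j i : ℝ) *
      (pf m t ^ (j + 1) * qf m t ^ (i + 1) * (R:ℝ) ^ (j + 1) / kap m R) := by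
    unfold Pf
    rw [Finset.sum_mul, Finset.sum_div]
    refine Finset.sum_congr rfl fun i _ => by ring
  rw [e1]
  -- the model
  have e2 : ∀ i ∈ Finset.range (j + 1), pf m R ^ (j + 1) * qf m R ^ (i + 1) * (R:ℝ) ^ (j + 1) / kap m R =
      ((R:ℝ) * pf m R) ^ (j - i) * kap m R ^ i := by
    intro i hi
    have hi' : i ≤ j := by have := Finset.mem_range.1 hi; omega
    obtain ⟨l, rfl⟩ := Nat.exists_eq_add_of_le hi'
    rw [div_eq_iff hk.ne', show i + l - i = l by omega, hkap]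
    ring
  have hup : ∀ i ∈ Finset.range (j + 1), pf m t ^ (j + 1) * qf m t ^ (i + 1) * (R:ℝ) ^ (j + 1) / kap m R ≤
      ((R:ℝ) * pf m R) ^ (j - i) * kap m R ^ i := by
    intro i hi
    rw [← e2 i hi]
    have a1 := pf_anti hm h1
    have a2 := qf_anti hm hR h1
    gcongr
  have hlow : ∀ i ∈ Finset.range (j + 1), (1 / 9 : ℝ) ^ (j + 1) * (((R:ℝ) * pf m R) ^ (j - i) * kap m R ^ i) ≤
      pf m t ^ (j + 1) * qf m t ^ (i + 1) * (R:ℝ) ^ (j + 1) / kap m R := by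
    intro i hi
    have hi' : i ≤ j := by have := Finset.mem_range.1 hi; omega
    rw [← e2 i hi]
    have a1 := pf_low hm ht h2
    have a2 := qf_low hm hR ht h2
    have b1 : (pf m R / 3) ^ (j + 1) * (qf m R / 3) ^ (i + 1) ≤ pf m t ^ (j + 1) * qf m t ^ (i + 1) := by gcongr
    have b2 : (1 / 9 : ℝ) ^ (j + 1) * (pf m R ^ (j + 1) * qf m R ^ (i + 1)) ≤
        (pf m R / 3) ^ (j + 1) * (qf m R / 3) ^ (i + 1) := by
      have c1 : (1 / 9 : ℝ) ^ (j + 1) ≤ (1 / 3) ^ (j + 1) * (1 / 3) ^ (i + 1) := by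
        have : (1 / 9 : ℝ) ^ (j + 1) = (1 / 3) ^ (j + 1) * (1 / 3) ^ (j + 1) := by
          rw [← mul_pow]; norm_num
        rw [this]
        have : (1 / 3 : ℝ) ^ (j + 1) ≤ (1 / 3) ^ (i + 1) :=
          pow_le_pow_of_le_one (by norm_num) (by norm_num) (by omega)
        gcongr
      calc _ ≤ ((1 / 3 : ℝ) ^ (j + 1) * (1 / 3) ^ (i + 1)) * (pf m R ^ (j + 1) * qf m R ^ (i + 1)) := by gcongr
        _ = _ := by
          rw [div_eq_mul_one_div (pf m R) 3, div_eq_mul_one_div (qf m R) 3, mul_pow, mul_pow]; ring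
    calc _ = (1 / 9 : ℝ) ^ (j + 1) * (pf m R ^ (j + 1) * qf m R ^ (i + 1)) * (R:ℝ) ^ (j + 1) / kap m R := by ring
      _ ≤ _ := by
        have := b2.trans b1
        gcongr
  constructor
  · -- lower bound
    have hnn : ∀ i ∈ Finset.range (j + 1), 0 ≤ (Ac j i : ℝ) *
        (pf m t ^ (j + 1) * qf m t ^ (i + 1) * (R:ℝ) ^ (j + 1) / kap m R) := fun i _ => by positivity
    have key : (1 / 2 : ℝ) ^ j ≤ ((R:ℝ) * pf m R) ^ j ∨ (1 / 2 : ℝ) ^ j ≤ kap m R ^ j := by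
      rcases le_total m R with h | h
      · left
        exact pow_le_pow_left₀ (by norm_num) (Rp_half hR h) j
      · right
        exact pow_le_pow_left₀ (by norm_num) (kap_half hm hR h) j
    have h18 : (1 / 18 : ℝ) ^ (j + 1) ≤ (1 / 9 : ℝ) ^ (j + 1) * (1 / 2) ^ j := by
      have : (1 / 18 : ℝ) ^ (j + 1) = (1 / 9) ^ (j + 1) * (1 / 2) ^ (j + 1) := by
        rw [← mul_pow]; norm_num
      rw [this]
      have : (1 / 2 : ℝ) ^ (j + 1) ≤ (1 / 2) ^ j := pow_le_pow_of_le_one (by norm_num) (by norm_num) (by omega)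
      gcongr
    rcases key with h | h
    · have h0 : 0 ∈ Finset.range (j + 1) := Finset.mem_range.2 (by omega)
      have g1 := Finset.single_le_sum hnn h0
      refine le_trans ?_ g1
      have g2 := hlow 0 h0
      rw [Nat.sub_zero, pow_zero, mul_one] at g2
      have g3 : (1:ℝ) ≤ Ac j 0 := by exact_mod_cast Ac_zero j
      have g4 : (1 / 18 : ℝ) ^ (j + 1) ≤ pf m t ^ (j + 1) * qf m t ^ (0 + 1) * (R:ℝ) ^ (j + 1) / kap m R := by
        refine h18.trans (le_trans ?_ g2)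
        gcongr
      calc (1 / 18 : ℝ) ^ (j + 1) = 1 * (1 / 18 : ℝ) ^ (j + 1) := by ring
        _ ≤ _ := by gcongr
    · have h0 : j ∈ Finset.range (j + 1) := Finset.mem_range.2 (by omega)
      have g1 := Finset.single_le_sum hnn h0
      refine le_trans ?_ g1
      have g2 := hlow j h0
      rw [Nat.sub_self, pow_zero, one_mul] at g2
      have g3 : (1:ℝ) ≤ Ac j j := by exact_mod_cast Ac_self j
      have g4 : (1 / 18 : ℝ) ^ (j + 1) ≤ pf m t ^ (j + 1) * qf m t ^ (j + 1) * (R:ℝ) ^ (j + 1) / kap m R := by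
        refine h18.trans (le_trans ?_ g2)
        gcongr
      calc (1 / 18 : ℝ) ^ (j + 1) = 1 * (1 / 18 : ℝ) ^ (j + 1) := by ring
        _ ≤ _ := by gcongr
  · refine Finset.sum_le_sum fun i hi => ?_
    have g := hup i hi
    have g1 : ((R:ℝ) * pf m R) ^ (j - i) * kap m R ^ i ≤ 1 :=
      mul_le_one₀ (pow_le_one₀ hRp0.le hRp) (by positivity) (pow_le_one₀ hk.le hk1)
    calc _ ≤ (Ac j i : ℝ) * 1 := by
          gcongr
          exact g.trans g1
      _ = _ := mul_one _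

/-- the phase and its derivatives -/
def ph (m : ℕ) (κ : ℝ) : ℕ → ℝ → ℝ
  | 0, t => Real.log (Real.log (1 + t / m)) / κ
  | j + 1, t => (-1) ^ j * Pf m j t / κ

theorem t_LL : S_LL := by
  set C0 : ℝ := ∑ j ∈ Finset.range 9, ∑ i ∈ Finset.range (j + 1), (Ac j i : ℝ) with hC0
  obtain ⟨η, hη, hη1, C, hC, h⟩ := Pool.Agent.H221R2.FB.vdc_gen 5 ((1 / 18 : ℝ) ^ 9) C0 (by positivity)
  refine ⟨η, hη, hη1, 2 * Real.pi * C, by positivity, ?_⟩
  intro m R L u ω hm hR hRu hLR huL hk1 hk2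
  have hR0 : (0:ℝ) < R := by exact_mod_cast hR
  have hk := kap_pos hm hR
  have hpi := Real.pi_pos
  have hpi3 := Real.pi_gt_three
  set ξ : ℝ := kap m R * ω / (2 * Real.pi) with hξ
  have hξabs : |ξ| = kap m R * |ω| / (2 * Real.pi) := by
    rw [hξ, abs_div, abs_mul, abs_of_pos hk, abs_of_pos (by positivity : 0 < 2 * Real.pi)]
  have hb1 : 1 ≤ |ξ| := by
    rw [hξabs, le_div_iff₀ (by positivity)]
    linarith
  have hb2 : |ξ| ≤ (R:ℝ) ^ 5 := by
    rw [hξabs, div_le_iff₀ (by positivity)]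
    have : (R:ℝ) ^ 5 ≤ (R:ℝ) ^ 5 * (2 * Real.pi) := by
      have : 0 ≤ (R:ℝ) ^ 5 := by positivity
      nlinarith
    linarith
  have hmain := h R L u ξ (ph m (kap m R)) hR hRu hLR huL ?_ ?_ hb1 hb2
  · have e1 : ∀ n : ℕ, e (ξ * ph m (kap m R) 0 (u + n)) =
        cexp (I * ((ω * Real.log (Real.log (1 + (u + n) / m)) : ℝ) : ℂ)) := by
      intro n
      have e2 : ξ * ph m (kap m R) 0 (u + n) = ω * Real.log (Real.log (1 + (u + n) / m)) / (2 * Real.pi) := by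
        rw [hξ]
        unfold ph
        field_simp
      rw [e2]
      unfold e
      congr 1
      push_cast
      have : (Real.pi : ℂ) ≠ 0 := by exact_mod_cast hpi.ne'
      field_simp
    rw [Finset.sum_congr rfl fun n _ => (e1 n).symm]
    refine hmain.trans ?_
    have e3 : (R:ℝ) / |ξ| = 2 * Real.pi * (R / (kap m R * |ω|)) := by
      rw [hξabs]
      have : 0 < kap m R * |ω| := by linarith
      field_simp
    rw [e3]
    have g1 : 0 ≤ (R:ℝ) ^ (1 - η) := by positivity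
    have g2 : 0 ≤ R / (kap m R * |ω|) := by positivity
    calc C * ((R:ℝ) ^ (1 - η) + 2 * Real.pi * (R / (kap m R * |ω|)))
        ≤ C * (2 * Real.pi * (R:ℝ) ^ (1 - η) + 2 * Real.pi * (R / (kap m R * |ω|))) := by
          gcongr
          nlinarith
      _ = _ := by ring
  · intro j hj t ht
    have ht0 : 0 < t := by linarith [ht.1]
    rcases j with _ | j
    · have := (loglog_der hm ht0).div_const (kap m R)
      refine this.congr_deriv ?_
      unfold ph Pf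
      simp [Ac]
    · have := ((Pf_der hm j ht0).const_mul ((-1:ℝ) ^ j)).div_const (kap m R)
      refine this.congr_deriv ?_
      unfold ph
      ring
  · intro j hj1 hj2 t ht
    obtain ⟨j, rfl⟩ : ∃ i, j = i + 1 := ⟨j - 1, by omega⟩
    obtain ⟨b1, b2⟩ := Pf_bounds hm hR j ht.1 ht.2
    have e4 : (-1:ℝ) ^ (j + 1 + 1) * ph m (kap m R) (j + 1) t * (R:ℝ) ^ (j + 1) =
        Pf m j t * (R:ℝ) ^ (j + 1) / kap m R := by
      unfold ph
      have : (-1:ℝ) ^ (j + 1 + 1) * (-1) ^ j = 1 := by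
        rw [← pow_add, show j + 1 + 1 + j = 2 * (j + 1) by ring, pow_mul]; norm_num
      calc _ = ((-1:ℝ) ^ (j + 1 + 1) * (-1) ^ j) * (Pf m j t * (R:ℝ) ^ (j + 1) / kap m R) := by ring
        _ = _ := by rw [this, one_mul]
    rw [e4]
    refine ⟨le_trans ?_ b1, b2.trans ?_⟩
    · exact pow_le_pow_of_le_one (by norm_num) (by norm_num) (by omega)
    · rw [hC0]
      refine Finset.single_le_sum (f := fun j => ∑ i ∈ Finset.range (j + 1), (Ac j i : ℝ)) (fun j _ => by positivity)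
        (Finset.mem_range.2 (by omega))

end

end Pool.Agent.J4H1.GD
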