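import Pool.Agent.N879.GD.Stm
import Pool.Agent.J4H1.GD.LL

set_option autoImplicit false

/-! Project GD, SUM: the sum over all pairs off the diagonal. -/

namespace Pool.Agent.J4H1.GD

open Complex Filter Topology MeasureTheory Set
open Pool.Agent.N879.GD
open Pool.Agent.Y969.GP (PS)
open scoped ComplexConjugate

noncomputable section

/-! ### conjugation -/

lemma GG_conj (b : ℕ) (T x ω : ℝ) : conj (GG b T x ω) = GG b T (-x) (-ω) := by
  unfold GG
  rw [← integral_conj]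
  refine integral_congr_ae (Eventually.of_forall fun u => ?_)
  simp only [map_mul, Complex.conj_ofReal, ← Complex.exp_conj, Complex.conj_I]
  congr 2
  push_cast
  ring

lemma bt_conj (σ : ℝ) (b : ℕ) (T y ω : ℝ) (m n : ℕ) :
    bt σ b T y ω m n = conj (bt σ b T (-y) (-ω) n m) := by
  unfold bt
  rw [map_mul, map_mul, Complex.conj_ofReal, ← Complex.exp_conj, GG_conj, neg_neg, mul_comm (n:ℝ) (m:ℝ), neg_sub]
  congr 2
  simp only [map_neg, map_mul, map_add, Complex.conj_ofReal, Complex.conj_I]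
  congr 2
  push_cast
  ring

/-! ### dyadic decomposition -/

lemma dyadic (g : ℕ → ℂ) (D J : ℕ) : ∑ d ∈ Finset.range (min (D + 1) (2 ^ J)), g d =
    g 0 + ∑ j ∈ Finset.range J, ∑ r ∈ Finset.range (min (2 ^ j) (D + 1 - 2 ^ j)), g (2 ^ j + r) := by
  induction J with
  | zero =>
    simp
  | succ J ih =>
    rw [Finset.sum_range_succ, ← add_assoc, ← ih]
    rcases le_or_gt (D + 1) (2 ^ J) with h | h
    · have e1 : min (D + 1) (2 ^ J) = D + 1 := min_eq_left h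
      have e2 : min (D + 1) (2 ^ (J + 1)) = D + 1 := min_eq_left (by rw [pow_succ]; omega)
      rw [e1, e2, Nat.sub_eq_zero_of_le h]
      simp
    · have e1 : min (D + 1) (2 ^ J) = 2 ^ J := min_eq_right h.le
      have e2 : min (D + 1) (2 ^ (J + 1)) = 2 ^ J + min (2 ^ J) (D + 1 - 2 ^ J) := by
        rw [pow_succ]; omega
      rw [e1, e2, Finset.sum_range_add]

lemma half_sum (f : ℕ → ℕ → ℂ) (X J : ℕ) (hJ : X < 2 ^ J) :
    ∑ p ∈ (PS X).filter (fun p => p.1 < p.2), f p.1 p.2 =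
      ∑ m ∈ Finset.Icc 1 X, ∑ j ∈ Finset.range J,
        ∑ r ∈ Finset.range (min (2 ^ j) (X / m - m + 1 - 2 ^ j)), f m (m + 2 ^ j + r) := by
  have e0 : (PS X).filter (fun p => p.1 < p.2) =
      (Finset.Icc 1 X).biUnion fun m => (Finset.Ioc m (X / m)).image fun n => (m, n) := by
    ext ⟨a, b⟩
    simp only [PS, Finset.mem_filter, Finset.mem_product, Finset.mem_Icc, Finset.mem_biUnion, Finset.mem_image,
      Finset.mem_Ioc, Prod.mk.injEq]
    constructor
    · rintro ⟨⟨⟨⟨h1, h2⟩, h3, h4⟩, h5⟩, h6⟩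
      exact ⟨a, ⟨h1, h2⟩, b, ⟨h6, (Nat.le_div_iff_mul_le (by omega)).2 (by rw [mul_comm]; exact h5)⟩, rfl, rfl⟩
    · rintro ⟨m, ⟨h1, h2⟩, n, ⟨h3, h4⟩, rfl, rfl⟩
      have h5 := (Nat.le_div_iff_mul_le (by omega)).1 h4
      refine ⟨⟨⟨⟨h1, h2⟩, by omega, ?_⟩, by rw [mul_comm]; exact h5⟩, h3⟩
      exact h4.trans (Nat.div_le_self _ _)
  rw [e0, Finset.sum_biUnion]
  · refine Finset.sum_congr rfl fun m hm => ?_
    rw [Finset.sum_image (by intro a _ b _ h; exact (Prod.mk.inj h).2)]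
    simp only
    set D := X / m - m with hD
    have hm1 := (Finset.mem_Icc.1 hm).1
    have hDX : D + 1 ≤ 2 ^ J := by
      have : X / m ≤ X := Nat.div_le_self _ _
      omega
    have h1 := dyadic (fun d => if d = 0 then 0 else f m (m + d)) D J
    rw [min_eq_left hDX] at h1
    have e1 : ∑ n ∈ Finset.Ioc m (X / m), f m n =
        ∑ d ∈ Finset.range (D + 1), (if d = 0 then 0 else f m (m + d)) := by
      rw [Finset.sum_range_succ']
      simp only [Nat.add_eq_zero_iff, one_ne_zero, and_false, if_false, if_true, add_zero]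
      refine Finset.sum_nbij' (fun n => n - m - 1) (fun d => m + (d + 1)) ?_ ?_ ?_ ?_ ?_
      · intro n hn
        rw [Finset.mem_Ioc] at hn
        rw [Finset.mem_range]
        omega
      · intro d hd
        rw [Finset.mem_range] at hd
        rw [Finset.mem_Ioc]
        omega
      · intro n hn
        rw [Finset.mem_Ioc] at hn
        omega
      · intro d _
        omega
      · intro n hn
        rw [Finset.mem_Ioc] at hn
        congr 1
        omega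
    rw [e1, h1]
    simp only [if_true, zero_add]
    refine Finset.sum_congr rfl fun j _ => Finset.sum_congr rfl fun r _ => ?_
    have : 2 ^ j + r ≠ 0 := by positivity
    rw [if_neg this, add_assoc]
  · intro a _ b _ hab
    simp only [Function.onFun]
    rw [Finset.disjoint_left]
    intro p hp hq
    rw [Finset.mem_image] at hp hq
    obtain ⟨n, _, rfl⟩ := hp
    obtain ⟨n', _, h⟩ := hq
    exact hab (Prod.mk.inj h).1.symm

/-! ### the function `x^b e^(-x/4)` -/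

lemma pow_exp_le (N : ℕ) : ∃ K : ℝ, 1 ≤ K ∧ ∀ x : ℝ, 0 ≤ x → x ^ N * Real.exp (-(x / 4)) ≤ K := by
  refine ⟨4 ^ N * (N.factorial : ℝ) + 1, by have : 0 ≤ (4:ℝ) ^ N * (N.factorial : ℝ) := by positivity
                                            linarith, fun x hx => ?_⟩
  have h1 := Real.pow_div_factorial_le_exp (x / 4) (by positivity) N
  have hf : (0:ℝ) < N.factorial := by positivity
  have h2 : x ^ N ≤ 4 ^ N * (N.factorial : ℝ) * Real.exp (x / 4) := by
    rw [div_le_iff₀ hf, div_pow, div_le_iff₀ (by positivity)] at h1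
    linarith
  have h3 : x ^ N * Real.exp (-(x / 4)) ≤ 4 ^ N * (N.factorial : ℝ) := by
    rw [Real.exp_neg, ← div_eq_mul_inv, div_le_iff₀ (Real.exp_pos _)]
    exact h2
  linarith

/-- the parameters -/
structure Pr (η κ T τ : ℝ) (b : ℕ) (X : ℕ) : Prop where
  hT : 64 ≤ T
  hτ : τ = T ^ κ
  hκ : κ = η / 40
  hη0 : 0 < η
  hη1 : η ≤ 1
  hτ16 : 16 ≤ τ
  hτT : τ ^ 40 ≤ T
  hb : T ^ 2 ≤ τ ^ b
  hX : (X : ℝ) ≤ 2 * T * τ

lemma Pr.etaT {η κ T τ : ℝ} {b X : ℕ} (P : Pr η κ T τ b X) : T ^ (η / 4) = τ ^ 10 := by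
  have hT : 0 ≤ T := by linarith [P.hT]
  rw [P.hτ, ← Real.rpow_natCast, ← Real.rpow_mul hT, P.hκ]
  congr 1
  push_cast
  ring

/-- the bound for one block -/
lemma block {η κ T τ : ℝ} {b X : ℕ} (P : Pr η κ T τ b X) {C1 C2 K1 K2 K3 : ℝ} (hC1 : 0 < C1) (hC2 : 0 < C2)
    (hK1 : 1 ≤ K1) (hK2 : 1 ≤ K2) (hK3 : 1 ≤ K3)
    (hk1 : ∀ x : ℝ, 0 ≤ x → x ^ b * Real.exp (-(x / 4)) ≤ K1)
    (hk2 : ∀ x : ℝ, 0 ≤ x → x ^ (b + b) * Real.exp (-(x / 4)) ≤ K2)
    (hk3 : ∀ x : ℝ, 0 ≤ x → x ^ (b + 1) * Real.exp (-(x / 4)) ≤ K3)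
    {m R : ℕ} (hm : 1 ≤ m) (hR : 1 ≤ R) (hmX : m * (m + R) ≤ X) {ω y B : ℝ}
    (hBA : 1 ≤ zz T m R → B ≤ C1 * (√((m : ℝ) * (m + R)))⁻¹ * (1 + |ω|) ^ (-(1 / 2 : ℝ)) * ((1 + |ω|) / zz T m R) ^ b *
      Real.exp (-(|ω| / (4 * zz T m R))) * R)
    (hBB : 1 ≤ zz T m R → 2 * Real.pi ≤ kap m R * |ω| → kap m R * |ω| ≤ (R : ℝ) ^ 5 →
      B ≤ C2 * (1 + |y|) * (√((m : ℝ) * (m + R)))⁻¹ * (1 + |ω|) ^ (-(1 / 2 : ℝ)) *
      ((1 + |ω|) / zz T m R) ^ b * (1 + (1 + |ω|) / zz T m R) *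
      Real.exp (-(|ω| / (4 * zz T m R))) * ((R : ℝ) ^ (1 - η) + R / (kap m R * |ω|))) :
    B ≤ (C1 + C2) * (100 * K1 * K2 * K3) * (1 + |y|) * (τ ^ 2)⁻¹ / m := by
  have hT := P.hT
  have hT0 : 0 < T := by linarith
  have hτ16 := P.hτ16
  have hτ0 : 0 < τ := by linarith
  have hτT := P.hτT
  have hm0 : (0:ℝ) < m := by exact_mod_cast hm
  have hm1 : (1:ℝ) ≤ m := by exact_mod_cast hm
  have hR0 : (0:ℝ) < R := by exact_mod_cast hR
  have hR1 : (1:ℝ) ≤ R := by exact_mod_cast hR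
  have hmX' : (m:ℝ) * (m + R) ≤ 2 * T * τ := by
    have : (m:ℝ) * (m + R) ≤ X := by exact_mod_cast hmX
    exact this.trans P.hX
  have hy : 0 ≤ |y| := abs_nonneg y
  have hω : 0 ≤ |ω| := abs_nonneg ω
  -- powers of tau
  have tp : ∀ i j : ℕ, i ≤ j → τ ^ i ≤ τ ^ j := fun i j h => pow_le_pow_right₀ (by linarith) h
  have hL := log_pos' hm hR0
  set L := Real.log (1 + (R:ℝ) / m) with hLdef
  have hLlow : R / (m + R) ≤ L := by
    have h := Real.one_sub_inv_le_log_of_pos (show 0 < 1 + (R:ℝ) / m by positivity)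
    refine le_trans (le_of_eq ?_) h
    field_simp
    ring
  set z := zz T m R with hz
  have hzT : z = T * L := rfl
  have hz0 : 0 < z := by rw [hzT]; positivity
  have hzlow : T * (R / (m + R)) ≤ z := by rw [hzT]; gcongr
  have hz1 : 1 ≤ z := by
    refine le_trans ?_ hzlow
    rw [← mul_div_assoc, le_div_iff₀ (by positivity), one_mul]
    -- m + R ≤ T R
    have h1 : (m:ℝ) ^ 2 ≤ 2 * T * τ := by nlinarith only [hmX', mul_nonneg hm0.le hR0.le]
    have h2 : τ ≤ T / 8 := by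
      have a1 := tp 2 40 (by norm_num)
      have a2 : 16 * τ ≤ τ ^ 2 := by nlinarith only [mul_nonneg hτ0.le (sub_nonneg.2 hτ16)]
      linarith
    have h3 : (m:ℝ) ^ 2 ≤ (T / 2) ^ 2 := by nlinarith only [h1, mul_le_mul_of_nonneg_left h2 hT0.le]
    have h4 : (m:ℝ) ≤ T / 2 := by
      have := abs_le_of_sq_le_sq h3 (by positivity)
      exact (abs_le.1 (by simpa using this)).2
    nlinarith only [h4, mul_nonneg hT0.le (sub_nonneg.2 hR1), mul_nonneg (sub_nonneg.2 hT) hR0.le]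
  set w := 1 + |ω| with hw
  have hw1 : 1 ≤ w := by linarith
  have hw0 : 0 < w := by linarith
  set x := w / z with hx
  have hx0 : 0 < x := by positivity
  have hxz : x * z = w := by rw [hx]; field_simp
  -- exponential
  have hexp : Real.exp (-(|ω| / (4 * z))) ≤ 2 * Real.exp (-(x / 4)) := by
    have e1 : -(|ω| / (4 * z)) = 1 / (4 * z) + -(x / 4) := by
      rw [hx, hw]; field_simp; ring
    rw [e1, Real.exp_add]
    have h1 : Real.exp (1 / (4 * z)) ≤ 2 := by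
      have h2 : 1 / (4 * z) ≤ 1 / 4 := by
        rw [div_le_div_iff₀ (by positivity) (by norm_num)]; linarith
      have h3 : Real.exp (1 / 4) ≤ 2 := by
        have h4 := Real.exp_bound_div_one_sub_of_interval (x := 1 / 4) (by norm_num) (by norm_num)
        linarith
      exact (Real.exp_le_exp.2 h2).trans h3
    gcongr
  have hBA' := hBA hz1
  have hsq0 : 0 < √((m : ℝ) * (m + R)) := Real.sqrt_pos.2 (by positivity)
  have hmR : (m:ℝ) * R ≤ m * (m + R) := by nlinarith only [mul_nonneg hm0.le hm0.le]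
  -- A w^{-1/2} is at most sqrt (R / (m w))
  have hA : (√((m : ℝ) * (m + R)))⁻¹ * R ≤ √((m:ℝ) * R) / m := by
    rw [inv_mul_eq_div, div_le_div_iff₀ hsq0 hm0]
    have h1 : √((m:ℝ) * R) * √((m:ℝ) * R) = m * R := Real.mul_self_sqrt (by positivity)
    have h2 : √((m:ℝ) * R) ≤ √((m:ℝ) * (m + R)) := Real.sqrt_le_sqrt hmR
    calc (R:ℝ) * m = √((m:ℝ) * R) * √((m:ℝ) * R) := by rw [h1]; ring
      _ ≤ _ := by gcongr
  have hAX : √((m:ℝ) * R) ≤ 2 * T := by
    have h1 : (m:ℝ) * R ≤ (2 * T) ^ 2 := by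
      have h2 : τ ≤ T := (by simpa using tp 1 40 (by norm_num) : τ ≤ τ ^ 40).trans hτT
      nlinarith only [hmR, hmX', mul_le_mul_of_nonneg_left h2 hT0.le, sq_nonneg T]
    calc _ ≤ √((2 * T) ^ 2) := Real.sqrt_le_sqrt h1
      _ = 2 * T := Real.sqrt_sq (by positivity)
  have hwh : w ^ (-(1 / 2 : ℝ)) ≤ 1 := Real.rpow_le_one_of_one_le_of_nonpos hw1 (by norm_num)
  have hwh0 : 0 < w ^ (-(1 / 2 : ℝ)) := Real.rpow_pos_of_pos hw0 _
  have hKK : 1 ≤ K1 * K2 * K3 := by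
    have : 1 ≤ K1 * K2 := one_le_mul_of_one_le_of_one_le hK1 hK2
    exact one_le_mul_of_one_le_of_one_le this hK3
  have hK12 : K1 ≤ K1 * K2 * K3 := by
    have : 1 ≤ K2 * K3 := one_le_mul_of_one_le_of_one_le hK2 hK3
    nlinarith only [mul_le_mul_of_nonneg_left this (zero_le_one.trans hK1)]
  have hK22 : K2 ≤ K1 * K2 * K3 := by
    have : 1 ≤ K1 * K3 := one_le_mul_of_one_le_of_one_le hK1 hK3
    nlinarith only [mul_le_mul_of_nonneg_left this (zero_le_one.trans hK2)]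
  -- trivial bound
  have hB1 : B ≤ C1 * (√((m:ℝ) * R) / m) * w ^ (-(1 / 2 : ℝ)) * (2 * (x ^ b * Real.exp (-(x / 4)))) := by
    refine hBA'.trans ?_
    calc C1 * (√((m : ℝ) * (m + R)))⁻¹ * w ^ (-(1 / 2 : ℝ)) * x ^ b * Real.exp (-(|ω| / (4 * z))) * R
        = C1 * ((√((m : ℝ) * (m + R)))⁻¹ * R) * w ^ (-(1 / 2 : ℝ)) * (x ^ b * Real.exp (-(|ω| / (4 * z)))) := by ring
      _ ≤ C1 * (√((m:ℝ) * R) / m) * w ^ (-(1 / 2 : ℝ)) * (x ^ b * (2 * Real.exp (-(x / 4)))) := by gcongr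
      _ = _ := by ring
  -- what we want
  have hgoal : ∀ q : ℝ, q ≤ 100 * (K1 * K2 * K3) * (τ ^ 2)⁻¹ → B ≤ C1 * q / m →
      B ≤ (C1 + C2) * (100 * K1 * K2 * K3) * (1 + |y|) * (τ ^ 2)⁻¹ / m := by
    intro q hq hB
    refine hB.trans (div_le_div_of_nonneg_right ?_ hm0.le)
    have h1 : 0 ≤ 100 * (K1 * K2 * K3) * (τ ^ 2)⁻¹ := by positivity
    calc C1 * q ≤ C1 * (100 * (K1 * K2 * K3) * (τ ^ 2)⁻¹) := by gcongr
      _ = (C1 * 1) * (100 * (K1 * K2 * K3) * (τ ^ 2)⁻¹) := by ring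
      _ ≤ ((C1 + C2) * (1 + |y|)) * (100 * (K1 * K2 * K3) * (τ ^ 2)⁻¹) := by
          gcongr
          · linarith
          · linarith
      _ = _ := by ring
  have hTinv : 4 * T * (T ^ 2)⁻¹ ≤ 100 * (τ ^ 2)⁻¹ := by
    have h1 : τ ^ 2 ≤ T := (tp 2 40 (by norm_num)).trans hτT
    rw [← div_eq_mul_inv, ← div_eq_mul_inv, div_le_div_iff₀ (by positivity) (by positivity)]
    nlinarith only [mul_le_mul_of_nonneg_left h1 hT0.le, sq_nonneg T]
  rcases le_or_gt x (τ⁻¹) with hxs | hxs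
  · -- small x
    refine hgoal (4 * T * (T ^ 2)⁻¹) (hTinv.trans ?_) ?_
    · have : 0 ≤ (τ ^ 2)⁻¹ := by positivity
      nlinarith only [mul_le_mul_of_nonneg_right hKK this]
    · refine hB1.trans ?_
      have h1 : x ^ b * Real.exp (-(x / 4)) ≤ (T ^ 2)⁻¹ := by
        have h2 : Real.exp (-(x / 4)) ≤ 1 := Real.exp_le_one_iff.2 (by linarith)
        calc x ^ b * Real.exp (-(x / 4)) ≤ (τ⁻¹) ^ b * 1 := by gcongr
          _ = (τ ^ b)⁻¹ := by rw [mul_one, inv_pow]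
          _ ≤ (T ^ 2)⁻¹ := by
            have := P.hb
            gcongr
      calc C1 * (√((m:ℝ) * R) / m) * w ^ (-(1 / 2 : ℝ)) * (2 * (x ^ b * Real.exp (-(x / 4))))
          ≤ C1 * ((2 * T) / m) * 1 * (2 * (T ^ 2)⁻¹) := by gcongr
        _ = _ := by ring
  rcases le_or_gt τ x with hxl | hxl
  · -- large x
    refine hgoal (K2 * (4 * T * (T ^ 2)⁻¹)) ?_ ?_
    · calc K2 * (4 * T * (T ^ 2)⁻¹) ≤ (K1 * K2 * K3) * (100 * (τ ^ 2)⁻¹) := by gcongr
        _ = _ := by ring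
    · refine hB1.trans ?_
      have h1 : x ^ b * Real.exp (-(x / 4)) ≤ K2 * (T ^ 2)⁻¹ := by
        have h2 := hk2 x hx0.le
        have h3 : T ^ 2 ≤ x ^ b := P.hb.trans (pow_le_pow_left₀ hτ0.le hxl b)
        rw [← div_eq_mul_inv, le_div_iff₀ (by positivity)]
        calc x ^ b * Real.exp (-(x / 4)) * T ^ 2 ≤ x ^ b * Real.exp (-(x / 4)) * x ^ b := by gcongr
          _ = x ^ (b + b) * Real.exp (-(x / 4)) := by rw [pow_add]; ring
          _ ≤ K2 := h2
      calc C1 * (√((m:ℝ) * R) / m) * w ^ (-(1 / 2 : ℝ)) * (2 * (x ^ b * Real.exp (-(x / 4))))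
          ≤ C1 * ((2 * T) / m) * 1 * (2 * (K2 * (T ^ 2)⁻¹)) := by gcongr
        _ = _ := by ring
  -- the middle range
  have hτinv : 0 < τ⁻¹ := by positivity
  have hmR0 : 0 < (m:ℝ) + R := by positivity
  have hwlow : T * R / (τ * (m + R)) ≤ w := by
    rw [← hxz]
    calc T * R / (τ * (m + R)) = τ⁻¹ * (T * (R / (m + R))) := by field_simp
      _ ≤ x * z := by gcongr
  -- sqrt (m R) w^{-1/2} ≤ sqrt (m R) * sqrt (tau (m+R) / (T R))
  have hwhalf : w ^ (-(1 / 2 : ℝ)) ≤ √(τ * (m + R) / (T * R)) := by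
    have e1 : w ^ (-(1 / 2 : ℝ)) = √(w⁻¹) := by
      rw [Real.rpow_neg hw0.le, Real.sqrt_inv, Real.sqrt_eq_rpow]
    rw [e1]
    refine Real.sqrt_le_sqrt ?_
    rw [inv_le_comm₀ hw0 (by positivity)]
    refine le_trans (le_of_eq ?_) hwlow
    field_simp
  have hAw : (√((m : ℝ) * (m + R)))⁻¹ * R * w ^ (-(1 / 2 : ℝ)) ≤ √((m:ℝ) * R * τ / T) / m := by
    calc (√((m : ℝ) * (m + R)))⁻¹ * R * w ^ (-(1 / 2 : ℝ))
        ≤ (√((m : ℝ) * (m + R)))⁻¹ * R * √(τ * (m + R) / (T * R)) := by gcongr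
      _ = √((m:ℝ) * R * τ / T) / m := by
        have e1 : √(τ * (m + R) / (T * R)) = √((m : ℝ) * (m + R)) * (√((m:ℝ) * R * τ / T) / (m * R)) := by
          rw [← mul_div_assoc, ← Real.sqrt_mul (by positivity)]
          rw [eq_div_iff (by positivity)]
          have e2 : (m:ℝ) * (m + R) * ((m:ℝ) * R * τ / T) = (τ * (m + R) / (T * R)) * ((m:ℝ) * R) ^ 2 := by
            field_simp
          rw [e2, Real.sqrt_mul (by positivity), Real.sqrt_sq (by positivity)]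
        rw [e1]
        field_simp
  rcases le_or_gt ((m:ℝ) * R) (T / τ ^ 5) with hc1 | hc2
  · -- short products
    refine hgoal (K1 * 2 * (τ ^ 2)⁻¹) ?_ ?_
    · have h0 : 0 ≤ (τ ^ 2)⁻¹ := by positivity
      calc K1 * 2 * (τ ^ 2)⁻¹ ≤ (K1 * K2 * K3) * 100 * (τ ^ 2)⁻¹ := by
            gcongr
            norm_num
        _ = _ := by ring
    · have h1 : √((m:ℝ) * R * τ / T) ≤ (τ ^ 2)⁻¹ := by
        rw [show (τ ^ 2)⁻¹ = √(((τ ^ 2)⁻¹) ^ 2) from (Real.sqrt_sq (by positivity)).symm]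
        refine Real.sqrt_le_sqrt ?_
        calc (m:ℝ) * R * τ / T ≤ (T / τ ^ 5) * τ / T := by gcongr
          _ = _ := by field_simp
      calc B ≤ C1 * (√((m : ℝ) * (m + R)))⁻¹ * w ^ (-(1 / 2 : ℝ)) * x ^ b * Real.exp (-(|ω| / (4 * z))) * R := hBA'
        _ = C1 * ((√((m : ℝ) * (m + R)))⁻¹ * R * w ^ (-(1 / 2 : ℝ))) * (x ^ b * Real.exp (-(|ω| / (4 * z)))) := by
            ring
        _ ≤ C1 * (√((m:ℝ) * R * τ / T) / m) * (x ^ b * (2 * Real.exp (-(x / 4)))) := by gcongr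
        _ = C1 * (√((m:ℝ) * R * τ / T) / m) * (2 * (x ^ b * Real.exp (-(x / 4)))) := by ring
        _ ≤ C1 * ((τ ^ 2)⁻¹ / m) * (2 * K1) := by
            have := hk1 x hx0.le
            gcongr
        _ = _ := by ring
  · -- long products: the bound with a saving
    have hc3 : T < m * R * τ ^ 5 := by
      rwa [div_lt_iff₀ (by positivity)] at hc2
    have hm2 : (m:ℝ) ^ 2 ≤ 2 * T * τ := by nlinarith only [hmX', mul_nonneg hm0.le hR0.le]
    -- R ^ 4 ≥ T
    have hR2 : T ≤ 2 * τ ^ 11 * (R:ℝ) ^ 2 := by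
      have h1 : T ^ 2 ≤ (m * R * τ ^ 5) ^ 2 := pow_le_pow_left₀ hT0.le hc3.le 2
      have h2 : T * T ≤ T * (2 * τ ^ 11 * (R:ℝ) ^ 2) := by
        calc T * T = T ^ 2 := by ring
          _ ≤ (m * R * τ ^ 5) ^ 2 := h1
          _ = (m:ℝ) ^ 2 * ((R:ℝ) ^ 2 * τ ^ 10) := by ring
          _ ≤ (2 * T * τ) * ((R:ℝ) ^ 2 * τ ^ 10) := by gcongr
          _ = _ := by ring
      exact le_of_mul_le_mul_left h2 hT0
    have hR4 : T ≤ (R:ℝ) ^ 4 := by
      have h1 : T ^ 2 ≤ (2 * τ ^ 11 * (R:ℝ) ^ 2) ^ 2 := pow_le_pow_left₀ hT0.le hR2 2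
      have h2 : (4 * τ ^ 22) ≤ T := by
        calc 4 * τ ^ 22 ≤ τ * τ ^ 22 := by
              have : 0 ≤ τ ^ 22 := by positivity
              exact mul_le_mul_of_nonneg_right (by linarith only [hτ16]) this
          _ = τ ^ 23 := by ring
          _ ≤ τ ^ 40 := tp 23 40 (by norm_num)
          _ ≤ T := hτT
      have h3 : T * T ≤ T * (R:ℝ) ^ 4 := by
        calc T * T = T ^ 2 := by ring
          _ ≤ (2 * τ ^ 11 * (R:ℝ) ^ 2) ^ 2 := h1
          _ = (4 * τ ^ 22) * (R:ℝ) ^ 4 := by ring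
          _ ≤ T * (R:ℝ) ^ 4 := by gcongr
      exact le_of_mul_le_mul_left h3 hT0
    have hRτ : τ ≤ R := by
      have h1 : τ ^ 4 ≤ (R:ℝ) ^ 4 := ((tp 4 40 (by norm_num)).trans hτT).trans hR4
      exact le_of_pow_le_pow_left₀ (by norm_num) hR0.le h1
    have hk := kap_pos hm hR
    have hkap1 := kap_le hm hR
    -- kap w = T x R / (m + R)
    have hkw : kap m R * w = T * x * (R / (m + R)) := by
      rw [← hxz, hzT]
      have : kap m R = R / (m + R) / L := rfl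
      rw [this]
      field_simp
    have hmRr : (m:ℝ) + R ≤ 3 * τ ^ 6 * R := by
      have h1 : (m:ℝ) * T ≤ 2 * τ ^ 6 * R * T := by
        calc (m:ℝ) * T ≤ m * (m * R * τ ^ 5) := by gcongr
          _ = (m:ℝ) ^ 2 * (R * τ ^ 5) := by ring
          _ ≤ (2 * T * τ) * (R * τ ^ 5) := by gcongr
          _ = _ := by ring
      have h2 : (m:ℝ) ≤ 2 * τ ^ 6 * R := le_of_mul_le_mul_right h1 hT0
      have h3 : (1:ℝ) ≤ τ ^ 6 := one_le_pow₀ (by linarith)
      nlinarith only [h2, mul_le_mul_of_nonneg_right h3 hR0.le]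
    have hkwlow : T / (3 * τ ^ 7) ≤ kap m R * w := by
      rw [hkw]
      have h1 : 1 / (3 * τ ^ 6) ≤ R / (m + R) := by
        rw [div_le_div_iff₀ (by positivity) hmR0]
        linarith
      calc T / (3 * τ ^ 7) = T * τ⁻¹ * (1 / (3 * τ ^ 6)) := by field_simp
        _ ≤ T * x * (R / (m + R)) := by gcongr
    have hbig : τ ^ 30 ≤ T / (3 * τ ^ 7) := by
      rw [le_div_iff₀ (by positivity)]
      calc τ ^ 30 * (3 * τ ^ 7) = 3 * τ ^ 37 := by ring
        _ ≤ τ * τ ^ 37 := by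
            have : 0 ≤ τ ^ 37 := by positivity
            exact mul_le_mul_of_nonneg_right (by linarith only [hτ16]) this
        _ = τ ^ 38 := by ring
        _ ≤ τ ^ 40 := tp 38 40 (by norm_num)
        _ ≤ T := hτT
    have hw2 : 2 ≤ w := by
      have h1 : kap m R * w ≤ w := by nlinarith only [mul_le_mul_of_nonneg_right hkap1 hw0.le]
      have h2 : 2 ≤ τ ^ 30 := by
        have := tp 1 30 (by norm_num)
        simp only [pow_one] at this
        linarith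
      linarith
    have hωw : w ≤ 2 * |ω| := by linarith
    have hkω : τ ^ 30 / 2 ≤ kap m R * |ω| := by
      have : kap m R * w ≤ kap m R * (2 * |ω|) := by gcongr
      linarith
    have hτ30 : 2 * τ ^ 20 ≤ τ ^ 30 / 2 := by
      have : τ ^ 30 = τ ^ 10 * τ ^ 20 := by ring
      have h2 := tp 1 10 (by norm_num)
      simp only [pow_one] at h2
      have h3 : 0 ≤ τ ^ 20 := by positivity
      rw [this]
      nlinarith only [mul_le_mul_of_nonneg_right (by linarith only [h2, hτ16] : (4:ℝ) ≤ τ ^ 10) h3]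
    have hcond1 : 2 * Real.pi ≤ kap m R * |ω| := by
      have h1 := Real.pi_lt_four
      have h2 := tp 1 20 (by norm_num)
      simp only [pow_one] at h2
      linarith
    have hcond2 : kap m R * |ω| ≤ (R:ℝ) ^ 5 := by
      have h1 : kap m R * |ω| ≤ kap m R * w := by
        have : |ω| ≤ w := by linarith
        gcongr
      have h2 : R / ((m:ℝ) + R) ≤ 1 := by
        rw [div_le_one hmR0]; linarith
      calc kap m R * |ω| ≤ T * x * (R / (m + R)) := by rw [← hkw]; exact h1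
        _ ≤ T * τ * 1 := by
            have := hxl.le
            gcongr
        _ ≤ (R:ℝ) ^ 4 * R := by
            rw [mul_one]
            gcongr
        _ = _ := by ring
    have hB2 := hBB hz1 hcond1 hcond2
    have hRη : (R:ℝ) ^ (1 - η) + R / (kap m R * |ω|) ≤ R * (2 * (τ ^ 10)⁻¹) := by
      have h1 : (R:ℝ) ^ (1 - η) ≤ R * (τ ^ 10)⁻¹ := by
        rw [Real.rpow_sub hR0, Real.rpow_one, div_eq_mul_inv]
        have h2 : τ ^ 10 ≤ (R:ℝ) ^ η := by
          rw [← P.etaT]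
          have h3 : T ^ (η / 4) ≤ ((R:ℝ) ^ 4) ^ (η / 4) :=
            Real.rpow_le_rpow hT0.le hR4 (by have := P.hη0; positivity)
          refine h3.trans (le_of_eq ?_)
          rw [← Real.rpow_natCast, ← Real.rpow_mul hR0.le]
          congr 1
          push_cast
          ring
        gcongr
      have h4 : R / (kap m R * |ω|) ≤ R * (τ ^ 10)⁻¹ := by
        rw [← div_eq_mul_inv]
        have h5 : τ ^ 10 ≤ kap m R * |ω| := by
          have h6 := tp 10 20 (by norm_num)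
          have h7 : 0 ≤ τ ^ 20 := by positivity
          linarith
        gcongr
      linarith
    have hxx : x ^ b * (1 + x) * Real.exp (-(x / 4)) ≤ 2 * (K1 * K2 * K3) := by
      have h1 := hk1 x hx0.le
      have h2 := hk3 x hx0.le
      have h3 : K3 ≤ K1 * K2 * K3 := by
        have : 1 ≤ K1 * K2 := one_le_mul_of_one_le_of_one_le hK1 hK2
        nlinarith only [mul_le_mul_of_nonneg_right this (zero_le_one.trans hK3)]
      have e : x ^ b * (1 + x) * Real.exp (-(x / 4)) = x ^ b * Real.exp (-(x / 4)) +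
          x ^ (b + 1) * Real.exp (-(x / 4)) := by rw [pow_succ]; ring
      rw [e]
      linarith
    have hsqX : √((m:ℝ) * R * τ / T) ≤ 2 * τ := by
      rw [show 2 * τ = √((2 * τ) ^ 2) from (Real.sqrt_sq (by positivity)).symm]
      refine Real.sqrt_le_sqrt ?_
      calc (m:ℝ) * R * τ / T ≤ (2 * T * τ) * τ / T := by
            have := hmR.trans hmX'
            gcongr
        _ = 2 * τ ^ 2 := by field_simp
        _ ≤ (2 * τ) ^ 2 := by nlinarith only [sq_nonneg τ]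
    calc B ≤ C2 * (1 + |y|) * (√((m : ℝ) * (m + R)))⁻¹ * w ^ (-(1 / 2 : ℝ)) *
          x ^ b * (1 + x) * Real.exp (-(|ω| / (4 * z))) * ((R : ℝ) ^ (1 - η) + R / (kap m R * |ω|)) := hB2
      _ ≤ C2 * (1 + |y|) * (√((m : ℝ) * (m + R)))⁻¹ * w ^ (-(1 / 2 : ℝ)) *
          x ^ b * (1 + x) * (2 * Real.exp (-(x / 4))) * (R * (2 * (τ ^ 10)⁻¹)) := by gcongr
      _ = C2 * (1 + |y|) * ((√((m : ℝ) * (m + R)))⁻¹ * R * w ^ (-(1 / 2 : ℝ))) *
          (x ^ b * (1 + x) * Real.exp (-(x / 4))) * (4 * (τ ^ 10)⁻¹) := by ring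
      _ ≤ C2 * (1 + |y|) * ((2 * τ) / m) * (2 * (K1 * K2 * K3)) * (4 * (τ ^ 10)⁻¹) := by
          have := hAw.trans (div_le_div_of_nonneg_right hsqX hm0.le)
          gcongr
      _ = C2 * (16 * (K1 * K2 * K3)) * (1 + |y|) * (τ ^ 9)⁻¹ / m := by
          field_simp
          ring
      _ ≤ (C1 + C2) * (100 * K1 * K2 * K3) * (1 + |y|) * (τ ^ 2)⁻¹ / m := by
          have h1 : (τ ^ 9)⁻¹ ≤ (τ ^ 2)⁻¹ := by
            have := tp 2 9 (by norm_num)
            gcongr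
          have h2 : 16 * (K1 * K2 * K3) ≤ 100 * K1 * K2 * K3 := by nlinarith only [hKK]
          have h3 : C2 ≤ C1 + C2 := by linarith
          gcongr

end

end Pool.Agent.J4H1.GD
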